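import Pool.Agent.helper68.S2.OwnConv

/-!
# The curvature-quotient flow on the sphere converges exponentially to a round metric of explicit curvature

For every smooth `u₀` on `S²` (a smooth manifold in Mathlib) such that `g = e^(2u₀) ds²` has positive Gauss curvature, the evolution
`∂ₜ u = -1 + (mean of K_u)/K_u`, `u(0) = u₀` has a solution `u`, smooth on `[0, ∞) × S²` and of positive curvature, and for EVERY such
solution there is a smooth `w` such that the metric `e^(2w) ds²` is round, of Gauss curvature `exp(-E(u₀))`, where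
`E(u₀) = (1/4π) ∫ (|∇u₀|² + 2u₀) dA`, and `u(t) → w` and `e^(2u(t)) → e^(2w)` in all `C^k` norms, exponentially fast.
The derivatives of order `k` are those of the extensions `hom` to space, which are constant on rays.
-/

set_option autoImplicit false

open Set
open scoped ContDiff Manifold
open Pool.Agent.helper68.S2.Own

namespace Pool.Agent.Results.MP_4c9fe2_gt.RoundLimit

theorem result (u₀ : Sphere → ℝ) (hs : ContMDiff (𝓡 2) 𝓘(ℝ, ℝ) ∞ u₀) (hK : ∀ p, 0 < gauss u₀ p) :
    (∃ u : ℝ → Sphere → ℝ, Flow u₀ u) ∧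
    ∀ u : ℝ → Sphere → ℝ, Flow u₀ u → ∃ w : Sphere → ℝ, ContMDiff (𝓡 2) 𝓘(ℝ, ℝ) ∞ w ∧
      (∀ p, gauss w p = Real.exp (-energy u₀)) ∧
      ∀ k : ℕ, ∃ C c : ℝ, 0 < c ∧ ∀ t : ℝ, 0 ≤ t → ∀ p : Sphere,
        ‖iteratedFDeriv ℝ k (fun x => hom (u t) x - hom w x) p‖ ≤ C * Real.exp (-c * t) ∧
        ‖iteratedFDeriv ℝ k (fun x => Real.exp (2 * hom (u t) x) - Real.exp (2 * hom w x)) p‖ ≤
          C * Real.exp (-c * t) :=
  ⟨flow_exists hs hK, fun _ h => flow_limit h⟩

end Pool.Agent.Results.MP_4c9fe2_gt.RoundLimit
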